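import Mathlib
import Pool.Agent.H84.Atom.Undec

set_option autoImplicit false

/-!
# Atomicity of finitely based permutation classes is undecidable
-/

namespace Pool.Agent.Results.MP_163c54_co.JointEmbedding

/-- A finite permutation: a length `n` and a permutation of `0, ..., n - 1`. -/
abbrev FinPerm : Type := Σ n : ℕ, Equiv.Perm (Fin n)

/-- Containment: there is a choice of positions (increasing embedding) at which the entries of `π`
are ordered like the entries of `σ`. -/
def Contained (σ π : FinPerm) : Prop :=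
  ∃ e : Fin σ.1 ↪o Fin π.1, ∀ i j : Fin σ.1, σ.2 i < σ.2 j ↔ π.2 (e i) < π.2 (e j)

/-- The class of all permutations containing no element of `F`. -/
def Av (F : Set FinPerm) : Set FinPerm := {π | ∀ σ ∈ F, ¬ Contained σ π}

/-- Atomicity (joint embedding property) of a class. -/
def Atomic (C : Set FinPerm) : Prop :=
  ∀ α ∈ C, ∀ β ∈ C, ∃ γ ∈ C, Contained α γ ∧ Contained β γ

/-- The word of a permutation, the list of its values. -/
def word (π : FinPerm) : List ℕ := List.ofFn fun i => (π.2 i : ℕ)

open Pool.Agent.H84 Pool.Agent.H84.Atom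

theorem word_length (π : FinPerm) : (word π).length = π.1 := by simp [word]

theorem word_getD (π : FinPerm) (i : Fin π.1) : (word π).getD (i : ℕ) 0 = (π.2 i : ℕ) := by
  unfold word
  rw [List.getD_eq_getElem _ _ (by simp)]
  simp

theorem cn_iff (σ π : FinPerm) : Cn (word σ) (word π) ↔ Contained σ π := by
  constructor
  · rintro ⟨s, hs, hl, H⟩
    rw [List.sublist_iff_exists_fin_orderEmbedding_get_eq] at hs
    obtain ⟨f, hf⟩ := hs
    have e1 : σ.1 = s.length := by rw [hl, word_length]
    have e2 : (word π).length = π.1 := word_length π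
    refine ⟨((Fin.castOrderIso e1).toOrderEmbedding.trans f).trans
      (Fin.castOrderIso e2).toOrderEmbedding, ?_⟩
    have key : ∀ i : Fin σ.1, s.getD (i : ℕ) 0 =
        (π.2 ((((Fin.castOrderIso e1).toOrderEmbedding.trans f).trans
          (Fin.castOrderIso e2).toOrderEmbedding) i) : ℕ) := by
      intro i
      have h1 := hf (Fin.cast e1 i)
      rw [List.getD_eq_getElem _ _ (by rw [← e1]; exact i.2)]
      have h2 : s.get (Fin.cast e1 i) = s[(i : ℕ)]'(by rw [← e1]; exact i.2) := rfl
      rw [← h2, h1]
      simp [word]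
      rfl
    intro i j
    have h1 := H i j (by rw [word_length]; exact i.2) (by rw [word_length]; exact j.2)
    rw [word_getD, word_getD, key i, key j] at h1
    exact h1
  · rintro ⟨e, he⟩
    refine ⟨List.ofFn fun i => (π.2 (e i) : ℕ), ?_, ?_, ?_⟩
    · rw [List.sublist_iff_exists_fin_orderEmbedding_get_eq]
      have e1 : (List.ofFn fun i => (π.2 (e i) : ℕ)).length = σ.1 := by simp
      have e2 : π.1 = (word π).length := (word_length π).symm
      refine ⟨((Fin.castOrderIso e1).toOrderEmbedding.trans e).trans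
        (Fin.castOrderIso e2).toOrderEmbedding, ?_⟩
      intro i
      simp [word]
      rfl
    · simp [word]
    · intro i j hi hj
      rw [word_length] at hi hj
      have h1 := he ⟨i, hi⟩ ⟨j, hj⟩
      have h2 : (word σ).getD i 0 = (σ.2 ⟨i, hi⟩ : ℕ) := word_getD σ ⟨i, hi⟩
      have h3 : (word σ).getD j 0 = (σ.2 ⟨j, hj⟩ : ℕ) := word_getD σ ⟨j, hj⟩
      rw [h2, h3, List.getD_eq_getElem _ _ (by simpa using hi),
        List.getD_eq_getElem _ _ (by simpa using hj), List.getElem_ofFn, List.getElem_ofFn]
      exact h1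

theorem word_perm (π : FinPerm) : (word π).Perm (List.range (word π).length) := by
  rw [List.perm_ext_iff_of_nodup]
  · intro a
    rw [List.mem_range, word_length]
    unfold word
    rw [List.mem_ofFn]
    constructor
    · rintro ⟨i, rfl⟩
      exact (π.2 i).2
    · intro ha
      refine ⟨π.2.symm ⟨a, ha⟩, ?_⟩
      simp
  · unfold word
    rw [List.nodup_ofFn]
    intro i j hij
    exact π.2.injective (Fin.ext hij)
  · exact List.nodup_range

theorem exists_word {w : List ℕ} (hw : w.Perm (List.range w.length)) :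
    ∃ π : FinPerm, word π = w := by
  have hnd : w.Nodup := hw.nodup_iff.2 List.nodup_range
  have hlt : ∀ i : Fin w.length, w[(i : ℕ)] < w.length := by
    intro i
    have h1 : w[(i : ℕ)] ∈ List.range w.length := (hw.mem_iff).1 (List.getElem_mem _)
    exact List.mem_range.1 h1
  have hinj : Function.Injective (fun i : Fin w.length => (⟨w[(i : ℕ)], hlt i⟩ : Fin w.length)) := by
    intro i j hij
    have h2 := congrArg Fin.val hij
    exact Fin.ext ((List.Nodup.getElem_inj_iff hnd).1 h2)
  refine ⟨⟨w.length, Equiv.ofBijective _ (Finite.injective_iff_bijective.1 hinj)⟩, ?_⟩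
  apply List.ext_getElem
  · simp [word]
  · intro i h1 h2
    simp [word]

theorem exists_words {L : List (List ℕ)} (hL : ∀ w ∈ L, w.Perm (List.range w.length)) :
    ∃ F : List FinPerm, F.map word = L := by
  induction L with
  | nil => exact ⟨[], rfl⟩
  | cons w L ih =>
    obtain ⟨F, hF⟩ := ih fun v hv => hL v (List.mem_cons_of_mem _ hv)
    obtain ⟨π, hπ⟩ := exists_word (hL w List.mem_cons_self)
    exact ⟨π :: F, by simp [hF, hπ]⟩

theorem mem_Av (F : List FinPerm) (π : FinPerm) :
    π ∈ Av {σ | σ ∈ F} ↔ ((word π).Perm (List.range (word π).length) ∧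
      ∀ σ ∈ F.map word, ¬ Cn σ (word π)) := by
  constructor
  · intro h
    refine ⟨word_perm π, ?_⟩
    intro w hw
    obtain ⟨σ, hσ, rfl⟩ := List.mem_map.1 hw
    rw [cn_iff]
    exact h σ hσ
  · rintro ⟨-, h⟩ σ hσ
    rw [← cn_iff]
    exact h _ (List.mem_map.2 ⟨σ, hσ, rfl⟩)

theorem jep_iff_atomic (F : List FinPerm) : JEP (F.map word) ↔ Atomic (Av {σ | σ ∈ F}) := by
  constructor
  · intro h α hα β hβ
    rw [mem_Av] at hα hβ
    obtain ⟨w, h1, h2, h3⟩ := h _ _ hα hβ
    obtain ⟨γ, rfl⟩ := exists_word h1.1
    refine ⟨γ, (mem_Av F γ).2 h1, (cn_iff _ _).1 h2, (cn_iff _ _).1 h3⟩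
  · intro h a b ha hb
    obtain ⟨α, rfl⟩ := exists_word ha.1
    obtain ⟨β, rfl⟩ := exists_word hb.1
    obtain ⟨γ, h1, h2, h3⟩ := h α ((mem_Av F α).2 ha) β ((mem_Av F β).2 hb)
    exact ⟨word γ, (mem_Av F γ).1 h1, (cn_iff _ _).2 h2, (cn_iff _ _).2 h3⟩

/-- There is no algorithm which, given a finite list of permutations (as words), decides whether
the class of permutations avoiding them is atomic. -/
theorem result :
    ¬ ∃ f : List (List ℕ) → Bool, Computable f ∧
      ∀ F : List FinPerm, (f (F.map word) = true ↔ Atomic (Av {σ | σ ∈ F})) := by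
  rintro ⟨f, hf, H⟩
  obtain ⟨c, -, hdom⟩ := exists_universal
  apply ComputablePred.halting_problem 0
  rw [ComputablePred.computable_iff]
  refine ⟨fun cd => !(f (FB ((smC c).pari (NN (Encodable.encode cd))))), ?_, ?_⟩
  · have h1 : Computable fun cd : Nat.Partrec.Code => NN (Encodable.encode cd) :=
      (pr_NN.comp Primrec.encode).to_comp
    exact (Primrec.not.to_comp).comp (hf.comp ((smC c).primrec_basis.to_comp.comp h1))
  · funext cd
    have h1 := (smC c).jep_iff (NN (Encodable.encode cd))
    have h2 := hdom (Encodable.encode cd)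
    rw [Denumerable.ofNat_encode] at h2
    have h3 : (∃ r, ((smC c).T (NN (Encodable.encode cd)) r).1 = none) ↔
        (c.eval [Encodable.encode cd]).Dom := (halts_iff _).trans (dom_iff _)
    obtain ⟨F, hF⟩ := exists_words (FB_perm ((smC c).ok (NN (Encodable.encode cd))))
    have h4 := H F
    rw [← jep_iff_atomic, hF] at h4
    apply propext
    rw [← h2, ← h3]
    have h6 : (f (FB ((smC c).pari (NN (Encodable.encode cd)))) = true) ↔
        ¬ ∃ r, ((smC c).T (NN (Encodable.encode cd)) r).1 = none := by
      rw [← h1]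
      exact h4
    simp only [Bool.not_eq_eq_eq_not, Bool.not_true]
    constructor
    · intro h
      by_contra h5
      rw [Bool.not_eq_false] at h5
      exact (h6.1 h5) h
    · intro h
      by_contra h5
      rw [h6.2 h5] at h
      exact absurd h (by decide)

end Pool.Agent.Results.MP_163c54_co.JointEmbedding
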